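import Pool.Agent.H34.PS.Targets

/-!
# MP_669880_nt, row RA: square roots of `D` modulo `d`, reduction to coprime arguments
-/

set_option autoImplicit false

open Finset Pool.Agent.H34.PS

namespace Pool.Agent.H52.PS

/-- a square root modulo `f^2 g e` is `f` times a square root modulo `g e` -/
theorem root_div {D' f g e w : ℕ} (hf : 0 < f)
    (h : w ^ 2 ≡ f ^ 2 * (g * D') [MOD f ^ 2 * (g * e)]) :
    f * (w / f) = w ∧ (w / f) ^ 2 ≡ g * D' [MOD g * e] := by
  have h1 : f ^ 2 ∣ w ^ 2 := (h.dvd_iff (Dvd.intro _ rfl)).2 (Dvd.intro _ rfl)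
  have h2 : f ∣ w := (Nat.pow_dvd_pow_iff two_ne_zero).1 h1
  obtain ⟨w1, rfl⟩ := h2
  rw [Nat.mul_div_cancel_left w1 hf]
  refine ⟨rfl, ?_⟩
  rw [mul_pow] at h
  exact Nat.ModEq.mul_left_cancel' (pow_ne_zero 2 hf.ne') h

/-- the squarefree number `g` divides every square root modulo `g e` of a multiple of `g` -/
theorem root_dvd {D' g e w : ℕ} (hg : Squarefree g) (h : w ^ 2 ≡ g * D' [MOD g * e]) :
    g ∣ w := by
  have h1 : g ∣ w ^ 2 := (h.dvd_iff (Dvd.intro _ rfl)).2 (Dvd.intro _ rfl)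
  exact (hg.dvd_pow_iff_dvd two_ne_zero).1 h1

theorem coprime_of_root {D' g e w : ℕ} (hg : Squarefree g) (hc : Nat.Coprime D' e)
    (h : w ^ 2 ≡ g * D' [MOD g * e]) : Nat.Coprime g e := by
  rw [Nat.coprime_iff_gcd_eq_one]
  by_contra hne
  obtain ⟨p, hp, hpd⟩ := Nat.exists_prime_and_dvd hne
  have hpg : p ∣ g := hpd.trans (Nat.gcd_dvd_left _ _)
  have hpe : p ∣ e := hpd.trans (Nat.gcd_dvd_right _ _)
  have hgw := root_dvd hg h
  have h1 : p * p ∣ g * e := mul_dvd_mul hpg hpe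
  have h2 : p * p ∣ w ^ 2 := by
    rw [sq]
    exact mul_dvd_mul (hpg.trans hgw) (hpg.trans hgw)
  have h3 : p * p ∣ g * D' := (h.dvd_iff h1).1 h2
  have h4 : p * p ∣ Nat.gcd (g * D') (g * e) := Nat.dvd_gcd h3 h1
  rw [Nat.gcd_mul_left, hc, mul_one] at h4
  exact hp.one_lt.ne' (Nat.isUnit_iff.1 (hg p h4))

/-- row RA -/
theorem pf_RA : T_RA := by
  classical
  intro D d hD hd
  by_cases h0 : rho D d = 0
  · exact Or.inl h0
  right
  have hG : 0 < Nat.gcd D d := Nat.gcd_pos_of_pos_left _ hD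
  obtain ⟨g, f, hfg, hg⟩ := Nat.sq_mul_squarefree (Nat.gcd D d)
  obtain ⟨D', hD'⟩ := Nat.gcd_dvd_left D d
  obtain ⟨e, he⟩ := Nat.gcd_dvd_right D d
  have hc : Nat.Coprime D' e := by
    have h1 : Nat.gcd D d * Nat.gcd D' e = Nat.gcd D d * 1 := by
      rw [← Nat.gcd_mul_left, ← hD', ← he, mul_one]
    exact Nat.eq_of_mul_eq_mul_left hG h1
  rw [← hfg] at hD' he
  have hf : 0 < f := by
    rcases Nat.eq_zero_or_pos f with h | h
    · rw [h] at hfg
      simp at hfg
      omega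
    · exact h
  have hD2 : D = f ^ 2 * (g * D') := by rw [hD', mul_assoc]
  have hd2 : d = f ^ 2 * (g * e) := by rw [he, mul_assoc]
  have hgp : 0 < g := Nat.pos_of_ne_zero hg.ne_zero
  have hep : 0 < e := by
    rcases Nat.eq_zero_or_pos e with h | h
    · rw [h] at hd2
      simp at hd2
      omega
    · exact h
  have hdiv : D / f ^ 2 = g * D' := by
    rw [hD2]
    exact Nat.mul_div_cancel_left _ (pow_pos hf 2)
  have hroot : ∀ w ∈ (range d).filter (fun w => w ^ 2 ≡ D [MOD d]),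
      w < f ^ 2 * (g * e) ∧ f * (w / f) = w ∧ (w / f) ^ 2 ≡ g * D' [MOD g * e] := by
    intro w hw
    rw [mem_filter, mem_range] at hw
    obtain ⟨hw1, hw2⟩ := hw
    rw [hD2, hd2] at hw2
    rw [hd2] at hw1
    exact ⟨hw1, root_div hf hw2⟩
  have hge : Nat.Coprime g e := by
    obtain ⟨w, hw⟩ := Finset.card_pos.1 (Nat.pos_of_ne_zero h0)
    exact coprime_of_root hg hc (hroot w hw).2.2
  refine ⟨f, g, e, he, ?_, hg, ?_, ?_⟩
  · rw [hD']
    exact Dvd.intro _ rfl
  · rw [hdiv]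
    exact Nat.Coprime.mul_right hge.symm hc.symm
  · rw [hdiv]
    unfold rho
    have h1 : f * ((range e).filter fun w => w ^ 2 ≡ g * D' [MOD e]).card =
        ((range f) ×ˢ ((range e).filter fun w => w ^ 2 ≡ g * D' [MOD e])).card := by
      rw [card_product, card_range]
    rw [h1]
    refine Finset.card_le_card_of_injOn (fun w => (w / f / (g * e), w / f % e)) ?_ ?_
    · intro w hw
      obtain ⟨hw1, hw2, hw3⟩ := hroot w hw
      rw [Finset.mem_coe, mem_product, mem_range, mem_filter, mem_range]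
      refine ⟨?_, Nat.mod_lt _ hep, ?_⟩
      · show w / f / (g * e) < f
        rw [Nat.div_lt_iff_lt_mul (Nat.mul_pos hgp hep), Nat.div_lt_iff_lt_mul hf]
        calc w < f ^ 2 * (g * e) := hw1
          _ = f * (g * e) * f := by ring
      · show (w / f % e) ^ 2 ≡ g * D' [MOD e]
        have h2 : (w / f) ^ 2 ≡ g * D' [MOD e] := hw3.of_mul_left g
        exact ((Nat.mod_modEq (w / f) e).pow 2).trans h2
    · intro w hw w' hw' hww
      obtain ⟨_, hw2, hw3⟩ := hroot w hw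
      obtain ⟨_, hw2', hw3'⟩ := hroot w' hw'
      simp only [Prod.mk.injEq] at hww
      obtain ⟨hq, hr⟩ := hww
      have h2 : w / f ≡ w' / f [MOD e] := hr
      have h3 : w / f ≡ w' / f [MOD g] := by
        have a1 : w / f ≡ 0 [MOD g] := (Nat.modEq_zero_iff_dvd).2 (root_dvd hg hw3)
        have a2 : w' / f ≡ 0 [MOD g] := (Nat.modEq_zero_iff_dvd).2 (root_dvd hg hw3')
        exact a1.trans a2.symm
      have h4 : w / f ≡ w' / f [MOD g * e] := (Nat.modEq_and_modEq_iff_modEq_mul hge).1 ⟨h3, h2⟩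
      have h5 : w / f = w' / f := by
        rw [← Nat.div_add_mod (w / f) (g * e), ← Nat.div_add_mod (w' / f) (g * e), hq, h4]
      rw [← hw2, ← hw2', h5]

end Pool.Agent.H52.PS
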