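import Pool.Agent.H34.PS.Targets

/-!
# MP_669880_nt, row ZT: the zeta function to the right of 1, and the series of the character mod 4
-/

set_option autoImplicit false

open Finset Filter Pool.Agent.H34.PS

open scoped Topology

namespace Pool.Agent.H52.PS

/-- the mean value theorem for `t ^ (-η)` on `[x, x + 1]` -/
theorem mvt_rpow {η x : ℝ} (hη : 0 < η) (hx : 0 < x) :
    (x + 1) ^ (-(1 + η)) ≤ (x ^ (-η) - (x + 1) ^ (-η)) / η ∧
      (x ^ (-η) - (x + 1) ^ (-η)) / η ≤ x ^ (-(1 + η)) := by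
  obtain ⟨c, hc, hc2⟩ := exists_hasDerivAt_eq_slope (fun t : ℝ => t ^ (-η))
    (fun t => -η * t ^ (-η - 1)) (lt_add_one x)
    (fun t ht => (Real.hasDerivAt_rpow_const (p := -η)
      (Or.inl (hx.trans_le ht.1).ne')).continuousAt.continuousWithinAt)
    (fun t ht => Real.hasDerivAt_rpow_const (Or.inl (hx.trans ht.1).ne'))
  simp only [add_sub_cancel_left, div_one] at hc2
  have h1 : (x ^ (-η) - (x + 1) ^ (-η)) / η = c ^ (-(1 + η)) := by
    have h2 : -η - 1 = -(1 + η) := by ring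
    rw [h2] at hc2
    rw [div_eq_iff hη.ne']
    linarith
  rw [h1]
  constructor
  · exact Real.rpow_le_rpow_of_nonpos (hx.trans hc.1) hc.2.le (by linarith)
  · exact Real.rpow_le_rpow_of_nonpos hx hc.1.le (by linarith)

theorem tele {η : ℝ} (hη : 0 < η) :
    HasSum (fun n : ℕ => (((n : ℝ) + 1) ^ (-η) - ((n : ℝ) + 1 + 1) ^ (-η)) / η) (1 / η) := by
  rw [hasSum_iff_tendsto_nat_of_nonneg]
  · have h1 : ∀ N : ℕ, ∑ n ∈ range N, (((n : ℝ) + 1) ^ (-η) - ((n : ℝ) + 1 + 1) ^ (-η)) / η =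
        (1 - ((N : ℝ) + 1) ^ (-η)) / η := by
      intro N
      rw [← Finset.sum_div]
      congr 1
      have h2 := Finset.sum_range_sub' (fun n : ℕ => ((n : ℝ) + 1) ^ (-η)) N
      simp only [Nat.cast_add, Nat.cast_one, Nat.cast_zero, zero_add, Real.one_rpow] at h2
      exact h2
    simp only [h1]
    have h3 : Tendsto (fun N : ℕ => ((N : ℝ) + 1) ^ (-η)) atTop (𝓝 0) :=
      (tendsto_rpow_neg_atTop hη).comp (tendsto_atTop_add_const_right _ _
        tendsto_natCast_atTop_atTop)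
    have h4 := (h3.const_sub 1).div_const η
    rwa [sub_zero] at h4
  · intro n
    have hx : (0 : ℝ) < (n : ℝ) + 1 := by positivity
    have := (mvt_rpow hη hx).1
    refine le_trans ?_ this
    positivity

theorem zeta_bounds {η : ℝ} (hη : 0 < η) : 1 / η ≤ ∑' n : ℕ, (n : ℝ) ^ (-(1 + η)) ∧
    ∑' n : ℕ, (n : ℝ) ^ (-(1 + η)) ≤ 1 + 1 / η := by
  have hs : Summable fun n : ℕ => (n : ℝ) ^ (-(1 + η)) :=
    Real.summable_nat_rpow.2 (by linarith)
  have hs1 := (summable_nat_add_iff (f := fun n : ℕ => (n : ℝ) ^ (-(1 + η))) 1).2 hs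
  have hs2 := (summable_nat_add_iff (f := fun n : ℕ => (n : ℝ) ^ (-(1 + η))) 2).2 hs
  have h0 : ((0 : ℕ) : ℝ) ^ (-(1 + η)) = 0 := by
    rw [Nat.cast_zero]
    exact Real.zero_rpow (by linarith)
  have e1 : ∑' n : ℕ, (n : ℝ) ^ (-(1 + η)) = ∑' n : ℕ, ((n + 1 : ℕ) : ℝ) ^ (-(1 + η)) := by
    rw [hs.tsum_eq_zero_add, h0, zero_add]
  have e2 : ∑' n : ℕ, ((n + 1 : ℕ) : ℝ) ^ (-(1 + η)) =
      1 + ∑' n : ℕ, ((n + 2 : ℕ) : ℝ) ^ (-(1 + η)) := by
    rw [hs1.tsum_eq_zero_add]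
    simp only [zero_add, Nat.cast_one, Real.one_rpow]
  have ht := tele hη
  constructor
  · rw [e1, ← ht.tsum_eq]
    refine Summable.tsum_le_tsum (fun n => ?_) ht.summable hs1
    have := (mvt_rpow hη (show (0 : ℝ) < (n : ℝ) + 1 by positivity)).2
    push_cast
    exact this
  · rw [e1, e2, ← ht.tsum_eq]
    refine add_le_add le_rfl (Summable.tsum_le_tsum (fun n => ?_) hs2 ht.summable)
    have := (mvt_rpow hη (show (0 : ℝ) < (n : ℝ) + 1 by positivity)).1
    push_cast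
    have e3 : (n : ℝ) + 1 + 1 = (n : ℝ) + 2 := by ring
    rwa [e3] at this ⊢

theorem chi_even {n : ℕ} (h : n % 2 = 0) : chi (-1) n = 0 := by
  unfold chi
  rw [if_neg (by omega)]

theorem chi_one {n : ℕ} (h : n % 4 = 1) : chi (-1) n = 1 := by
  unfold chi
  rw [if_pos (by omega), jacobiSym.at_neg_one (Nat.odd_iff.2 (by omega)),
    ZMod.χ₄_nat_one_mod_four h]
  norm_num

theorem chi_three {n : ℕ} (h : n % 4 = 3) : chi (-1) n = -1 := by
  unfold chi
  rw [if_pos (by omega), jacobiSym.at_neg_one (Nat.odd_iff.2 (by omega)),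
    ZMod.χ₄_nat_three_mod_four h]
  norm_num

theorem abs_chi_le (n : ℕ) : |chi (-1) n| ≤ 1 := by
  have h : n % 2 = 0 ∨ n % 4 = 1 ∨ n % 4 = 3 := by omega
  rcases h with h | h | h
  · rw [chi_even h]
    norm_num
  · rw [chi_one h]
    norm_num
  · rw [chi_three h]
    norm_num

theorem partial_le {σ : ℝ} (hσ : 1 < σ) (M : ℕ) :
    1 / 2 ≤ ∑ n ∈ range (4 * (M + 1)), chi (-1) n * (n : ℝ) ^ (-σ) := by
  have step : ∀ m : ℕ, ∑ n ∈ range (4 * (m + 1)), chi (-1) n * (n : ℝ) ^ (-σ) =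
      ∑ n ∈ range (4 * m), chi (-1) n * (n : ℝ) ^ (-σ) +
        (((4 * m + 1 : ℕ) : ℝ) ^ (-σ) - ((4 * m + 3 : ℕ) : ℝ) ^ (-σ)) := by
    intro m
    have e : 4 * (m + 1) = 4 * m + 3 + 1 := by ring
    rw [e, sum_range_succ, sum_range_succ, sum_range_succ, sum_range_succ,
      chi_even (n := 4 * m) (by omega), chi_one (n := 4 * m + 1) (by omega),
      chi_even (n := 4 * m + 2) (by omega), chi_three (n := 4 * m + 3) (by omega)]
    ring
  induction M with
  | zero =>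
    rw [step 0]
    have h3 : (3 : ℝ) ^ (-σ) ≤ 1 / 3 := by
      have h4 : (3 : ℝ) ^ (-σ) ≤ (3 : ℝ) ^ (-1 : ℝ) :=
        Real.rpow_le_rpow_of_exponent_le (by norm_num) (by linarith)
      rw [Real.rpow_neg_one] at h4
      linarith
    simp
    linarith
  | succ M ih =>
    rw [step (M + 1)]
    have h4 : ((4 * (M + 1) + 3 : ℕ) : ℝ) ^ (-σ) ≤ ((4 * (M + 1) + 1 : ℕ) : ℝ) ^ (-σ) := by
      refine Real.rpow_le_rpow_of_nonpos (by positivity) ?_ (by linarith)
      exact_mod_cast (by omega : 4 * (M + 1) + 1 ≤ 4 * (M + 1) + 3)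
    linarith

/-- row ZT -/
theorem pf_ZT : T_ZT := by
  refine ⟨fun η hη => zeta_bounds hη, fun σ hσ => ?_⟩
  have hs0 : Summable fun n : ℕ => (n : ℝ) ^ (-σ) := Real.summable_nat_rpow.2 (by linarith)
  have hs : Summable fun n : ℕ => chi (-1) n * (n : ℝ) ^ (-σ) := by
    refine Summable.of_norm_bounded hs0 fun n => ?_
    rw [Real.norm_eq_abs, abs_mul, abs_of_nonneg (Real.rpow_nonneg (Nat.cast_nonneg n) _)]
    have h1 := abs_chi_le n
    have h2 : (0 : ℝ) ≤ (n : ℝ) ^ (-σ) := Real.rpow_nonneg (Nat.cast_nonneg n) _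
    nlinarith
  have ht := hs.hasSum.tendsto_sum_nat.comp
    (show Tendsto (fun M : ℕ => 4 * (M + 1)) atTop atTop from
      tendsto_atTop_mono (fun M => by show M ≤ 4 * (M + 1); omega) tendsto_id)
  exact ge_of_tendsto ht (Eventually.of_forall fun M => partial_le hσ M)

end Pool.Agent.H52.PS
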